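import Mathlib

/-!
# Minimal invertible pieces of `r` and of `r ^ k` in one-relator inverse monoids

There is a word `r` over three letters such that for every `k ≥ 2` the minimal invertible pieces of
`r ^ k` in `Inv⟨A | r ^ k = 1⟩` are not those of `r` in `Inv⟨A | r = 1⟩`.
-/

set_option autoImplicit false

namespace Pool.Agent.Results.MP_d4551b_al.PiecesDiffer

/-- Words over `A ∪ A⁻¹`: the letter `(a, true)` is `a` and the letter `(a, false)` is `a⁻¹`. -/
abbrev Word (A : Type) := List (A × Bool)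

/-- The formal inverse of a word. -/
def winv {A : Type} (u : Word A) : Word A := (u.map fun x => (x.1, !x.2)).reverse

/-- The defining relations of the inverse monoid `Inv⟨A | w = 1⟩` over the free monoid of words:
`u u⁻¹ u = u` and `u u⁻¹ v v⁻¹ = v v⁻¹ u u⁻¹` for all words `u, v` (these define the free inverse
monoid), and `w = 1`. -/
inductive Rel {A : Type} (w : Word A) : FreeMonoid (A × Bool) → FreeMonoid (A × Bool) → Prop
  | inv (u : Word A) :
      Rel w (FreeMonoid.ofList (u ++ winv u ++ u)) (FreeMonoid.ofList u)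
  | comm (u v : Word A) :
      Rel w (FreeMonoid.ofList (u ++ winv u ++ (v ++ winv v)))
        (FreeMonoid.ofList (v ++ winv v ++ (u ++ winv u)))
  | rel : Rel w (FreeMonoid.ofList w) 1

/-- The special inverse monoid `Inv⟨A | w = 1⟩`. -/
abbrev Inv {A : Type} (w : Word A) : Type := (conGen (Rel w)).Quotient

/-- The element of `Inv⟨A | w = 1⟩` represented by a word. -/
def val {A : Type} (w u : Word A) : Inv w := (FreeMonoid.ofList u : FreeMonoid (A × Bool))

/-- The word `u` represents a unit of `Inv⟨A | w = 1⟩`. -/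
def UnitWord {A : Type} (w u : Word A) : Prop := IsUnit (val w u)

/-- The minimal invertible pieces of `w` in `Inv⟨A | w = 1⟩`: `w = x y z`, where `y` is nonempty,
`x` and `x y` represent units (the empty word represents the unit `1`), and `x y'` does not represent
a unit if `y'` is a nonempty prefix of `y` with `y' ≠ y`. -/
def Pieces {A : Type} (w : Word A) : Set (Word A) :=
  {y | y ≠ [] ∧ ∃ x z : Word A, w = x ++ y ++ z ∧ UnitWord w x ∧ UnitWord w (x ++ y) ∧
    ∀ y' y'' : Word A, y = y' ++ y'' → y' ≠ [] → y'' ≠ [] → ¬ UnitWord w (x ++ y')}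

/-- The power `r ^ k` of a word. -/
def wpow {A : Type} (r : Word A) (k : ℕ) : Word A := (List.replicate k r).flatten

/-! ### General facts -/

section
variable {A : Type} {w : Word A}

theorem val_append (u v : Word A) : val w (u ++ v) = val w u * val w v := rfl

theorem val_nil : val w [] = 1 := rfl

theorem val_rel : val w w = 1 := (Con.eq _).2 (ConGen.Rel.of _ _ Rel.rel)

theorem val_inv (u : Word A) : val w u * val w (winv u) * val w u = val w u := by
  rw [← val_append, ← val_append]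
  exact (Con.eq _).2 (ConGen.Rel.of _ _ (Rel.inv u))

/-- If a word of the form `u u⁻¹ z` represents `1` then so do `u u⁻¹` and `z`. -/
theorem split_one (u z : Word A) (h : val w (u ++ winv u ++ z) = 1) :
    val w u * val w (winv u) = 1 ∧ val w z = 1 := by
  rw [val_append, val_append] at h
  have h1 : val w u * val w (winv u) = 1 := by
    calc val w u * val w (winv u)
        = val w u * val w (winv u) * (val w u * val w (winv u) * val w z) := by rw [h, mul_one]
      _ = (val w u * val w (winv u) * val w u) * val w (winv u) * val w z := by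
          simp only [mul_assoc]
      _ = 1 := by rw [val_inv, h]
  exact ⟨h1, by rw [h1, one_mul] at h; exact h⟩

theorem UnitWord.nil : UnitWord w [] := by
  unfold UnitWord; rw [val_nil]; exact isUnit_one

end

/-! ### The word `r` -/

/-- The alphabet consists of `b = 0`, `c = 1`, `t = 2`. -/
abbrev A3 := Fin 3

/-- `x = t c t⁻¹` -/
def wx : Word A3 := [(2, true), (1, true), (2, false)]
/-- `y = t b c⁻¹ b⁻¹ t⁻¹` -/
def wy : Word A3 := [(2, true), (0, true), (1, false), (0, false), (2, false)]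

/-- `r = x x⁻¹ y y⁻¹ c c⁻¹ c⁻¹ c b b⁻¹ b⁻¹ b b` -/
def r : Word A3 := wx ++ winv wx ++ (wy ++ winv wy ++ ([(1, true)] ++ winv [(1, true)] ++
  ([(1, false)] ++ winv [(1, false)] ++ ([(0, true)] ++ winv [(0, true)] ++
    ([(0, false)] ++ winv [(0, false)] ++ [(0, true)])))))

/-- `x` represents a unit of `Inv⟨b, c, t | r = 1⟩`. -/
theorem unit_x : UnitWord r wx := by
  obtain ⟨hx, h1⟩ := split_one (w := r) wx _ (val_rel (w := r))
  obtain ⟨hy, h2⟩ := split_one (w := r) wy _ h1
  obtain ⟨hc, h3⟩ := split_one (w := r) _ _ h2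
  obtain ⟨hc', h4⟩ := split_one (w := r) _ _ h3
  obtain ⟨hb, h5⟩ := split_one (w := r) _ _ h4
  obtain ⟨hb', h6⟩ := split_one (w := r) _ _ h5
  have hb0 : val r [(0, false)] = 1 := by
    have : winv [((0 : A3), true)] = [(0, false)] := rfl
    rw [h6, this, one_mul] at hb
    exact hb
  have e1 : val r wy = val r (winv wx) := by
    have l1 : wy = [(2, true)] ++ ([(0, true)] ++ ([(1, false)] ++ ([(0, false)] ++ [(2, false)]))) := rfl
    have l2 : winv wx = [(2, true)] ++ ([(1, false)] ++ [(2, false)]) := rfl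
    rw [l1, l2]
    simp only [val_append, h6, hb0, one_mul]
  have e2 : val r (winv wy) = val r wx := by
    have l1 : winv wy = [(2, true)] ++ ([(0, true)] ++ ([(1, true)] ++ ([(0, false)] ++ [(2, false)]))) := rfl
    have l2 : wx = [(2, true)] ++ ([(1, true)] ++ [(2, false)]) := rfl
    rw [l1, l2]
    simp only [val_append, h6, hb0, one_mul]
  rw [e1, e2] at hy
  exact ⟨⟨val r wx, val r (winv wx), hx, hy⟩, rfl⟩

/-! ### The model of `Inv⟨b, c, t | r ^ k = 1⟩` -/

/-- The monoid of the partial bijections of a set. -/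
abbrev PM (Ω : Type) := Ω ≃. Ω

instance (Ω : Type) : Monoid (PM Ω) where
  mul f g := PEquiv.trans f g
  one := PEquiv.refl Ω
  mul_assoc f g h := PEquiv.trans_assoc f g h
  one_mul f := PEquiv.refl_trans f
  mul_one f := PEquiv.trans_refl f

theorem pm_mul {Ω : Type} (f g : PM Ω) : f * g = PEquiv.trans f g := rfl
theorem pm_one {Ω : Type} : (1 : PM Ω) = PEquiv.refl Ω := rfl

section model
variable {Ω : Type} {A : Type} (g : A → PM Ω)

/-- The value of a letter. -/
def lv (x : A × Bool) : PM Ω := if x.2 then g x.1 else PEquiv.symm (g x.1)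

/-- The value of a word. -/
def ev : FreeMonoid (A × Bool) →* PM Ω := FreeMonoid.lift (lv g)

theorem ev_append (u v : Word A) : ev g (FreeMonoid.ofList (u ++ v)) =
    ev g (FreeMonoid.ofList u) * ev g (FreeMonoid.ofList v) := by
  rw [FreeMonoid.ofList_append, map_mul]

theorem ev_cons (x : A × Bool) (u : Word A) : ev g (FreeMonoid.ofList (x :: u)) =
    lv g x * ev g (FreeMonoid.ofList u) := by
  rw [FreeMonoid.ofList_cons, map_mul]; simp [ev]

theorem ev_nil : ev g (FreeMonoid.ofList []) = 1 := by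
  rw [FreeMonoid.ofList_nil, map_one]

theorem ev_winv (u : Word A) : ev g (FreeMonoid.ofList (winv u)) =
    PEquiv.symm (ev g (FreeMonoid.ofList u)) := by
  induction u with
  | nil =>
    have : winv ([] : Word A) = [] := rfl
    rw [this, ev_nil]; rfl
  | cons x u ih =>
    have : winv (x :: u) = winv u ++ [(x.1, !x.2)] := by simp [winv]
    rw [this, ev_append, ih, ev_cons, ev_cons, ev_nil, mul_one, pm_mul, pm_mul, PEquiv.symm_trans_rev]
    congr 1
    rcases x with ⟨a, _ | _⟩ <;> simp [lv]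

theorem symm_mul_self {f : PM Ω} : f * (PEquiv.symm f) * f = f := by
  rw [pm_mul, pm_mul]
  apply PEquiv.ext
  intro a
  rcases h : f a with _ | b
  · rw [PEquiv.trans_eq_none]
    intro b c
    left
    intro hb
    rw [PEquiv.mem_trans] at hb
    obtain ⟨d, hd, _⟩ := hb
    rw [Option.mem_def] at hd
    rw [h] at hd
    exact absurd hd (by simp)
  · rw [PEquiv.trans_eq_some]
    refine ⟨a, ?_, h⟩
    rw [PEquiv.trans_eq_some]
    exact ⟨b, h, (PEquiv.eq_some_iff f).2 h⟩

theorem comm_idem (f h : PM Ω) :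
    f * (PEquiv.symm f) * (h * (PEquiv.symm h)) = h * (PEquiv.symm h) * (f * (PEquiv.symm f)) := by
  classical
  have key : ∀ f : PM Ω, ∀ a b : Ω, b ∈ (PEquiv.trans f (PEquiv.symm f)) a ↔
      a = b ∧ ∃ c, c ∈ f a := by
    intro f a b
    rw [PEquiv.mem_trans]
    constructor
    · rintro ⟨c, hc, hc2⟩
      rw [PEquiv.mem_iff_mem] at hc2
      exact ⟨PEquiv.inj f hc hc2, c, hc⟩
    · rintro ⟨rfl, c, hc⟩
      exact ⟨c, hc, (PEquiv.mem_iff_mem f).2 hc⟩
  have key2 : ∀ f h : PM Ω, ∀ a b : Ω,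
      b ∈ (PEquiv.trans (PEquiv.trans f (PEquiv.symm f)) (PEquiv.trans h (PEquiv.symm h))) a ↔
      a = b ∧ (∃ c, c ∈ f a) ∧ ∃ c, c ∈ h a := by
    intro f h a b
    rw [PEquiv.mem_trans]
    constructor
    · rintro ⟨c, hc, hc2⟩
      rw [key] at hc hc2
      obtain ⟨rfl, h1⟩ := hc
      exact ⟨hc2.1, h1, hc2.2⟩
    · rintro ⟨rfl, h1, h2⟩
      exact ⟨a, (key f a a).2 ⟨rfl, h1⟩, (key h a a).2 ⟨rfl, h2⟩⟩
  simp only [pm_mul]
  apply PEquiv.ext
  intro a
  apply Option.ext
  intro b
  have h1 := key2 f h a b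
  have h2 := key2 h f a b
  rw [Option.mem_def] at h1 h2
  rw [h1, h2]
  tauto

/-- A model of the relation `w = 1` gives a homomorphism on `Inv⟨A | w = 1⟩`. -/
def modelHom {w : Word A} (hw : ev g (FreeMonoid.ofList w) = 1) : Inv w →* PM Ω :=
  Con.lift _ (ev g) (by
    rw [Con.conGen_le]
    intro u v h
    rw [Con.ker_rel]
    cases h with
    | inv u => rw [ev_append, ev_append, ev_winv, symm_mul_self]
    | comm u v => rw [ev_append, ev_append, ev_append, ev_append, ev_append, ev_append, ev_winv,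
        ev_winv, comm_idem]
    | rel => rw [hw, map_one])

theorem modelHom_val {w : Word A} (hw : ev g (FreeMonoid.ofList w) = 1) (u : Word A) :
    modelHom g hw (val w u) = ev g (FreeMonoid.ofList u) := rfl

theorem isUnit_ev {w : Word A} (hw : ev g (FreeMonoid.ofList w) = 1) {u : Word A}
    (h : UnitWord w u) : IsUnit (ev g (FreeMonoid.ofList u)) := by
  rw [← modelHom_val g hw]
  exact h.map (modelHom g hw)

theorem ev_wpow (u : Word A) (k : ℕ) : ev g (FreeMonoid.ofList (wpow u k)) =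
    ev g (FreeMonoid.ofList u) ^ k := by
  induction k with
  | zero => simp [wpow]
  | succ k ih =>
    have : wpow u (k + 1) = u ++ wpow u k := by simp [wpow, List.replicate_succ]
    rw [this, ev_append, ih, pow_succ']

end model

/-- A unit of the monoid of partial bijections is onto. -/
theorem surj_of_isUnit {Ω : Type} {f : PM Ω} (h : IsUnit f) (b : Ω) :
    ∃ a, b ∈ (f : Ω ≃. Ω) a := by
  obtain ⟨u, rfl⟩ := h
  have h1 : ((u⁻¹ : (PM Ω)ˣ) : PM Ω) * (u : PM Ω) = 1 := u.inv_mul
  have h2 : b ∈ (PEquiv.trans ((u⁻¹ : (PM Ω)ˣ) : PM Ω) (u : PM Ω)) b := by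
    have : PEquiv.trans ((u⁻¹ : (PM Ω)ˣ) : PM Ω) (u : PM Ω) = PEquiv.refl Ω := h1
    rw [this]; rfl
  rw [PEquiv.mem_trans] at h2
  obtain ⟨a, _, ha⟩ := h2
  exact ⟨a, ha⟩

section concrete
variable (k : ℕ)

/-- The underlying set. -/
abbrev Om := ℤ × ZMod k

/-- `b` -/
def pb : Equiv.Perm (Om k) where
  toFun p := (p.1, p.2 + 1)
  invFun p := (p.1, p.2 - 1)
  left_inv p := by simp
  right_inv p := by simp

/-- `c` -/
def pc : Equiv.Perm (Om k) where
  toFun p := if p.2 = 0 then (p.1 + 1, p.2) else if p.2 = 1 then (p.1 - 1, p.2) else p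
  invFun p := if p.2 = 0 then (p.1 - 1, p.2) else if p.2 = 1 then (p.1 + 1, p.2) else p
  left_inv p := by
    rcases p with ⟨n, i⟩
    by_cases h0 : i = 0
    · simp [h0]
    · by_cases h1 : i = 1
      · subst h1
        simp [h0]
      · simp [h0, h1]
  right_inv p := by
    rcases p with ⟨n, i⟩
    by_cases h0 : i = 0
    · simp [h0]
    · by_cases h1 : i = 1
      · subst h1
        simp [h0]
      · simp [h0, h1]

theorem countable_Om (hk : 2 ≤ k) : Nonempty (Om k ≃ ℕ) := by
  haveI : NeZero k := ⟨by omega⟩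
  exact nonempty_equiv_of_countable

variable {k}

/-- `t`, a bijection from the set onto the set of the pairs `(n, 0)` with `n` a natural number. -/
def pt (e : Om k ≃ ℕ) : PM (Om k) where
  toFun p := some ((e p : ℤ), 0)
  invFun q := if q.2 = 0 ∧ 0 ≤ q.1 then some (e.symm q.1.toNat) else none
  inv p q := by
    rcases q with ⟨n, i⟩
    simp only [Option.mem_def]
    constructor
    · intro h
      by_cases hq : i = 0 ∧ 0 ≤ n
      · rw [if_pos hq] at h
        have h1 : e.symm n.toNat = p := Option.some.inj h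
        rw [← h1, Equiv.apply_symm_apply, Int.toNat_of_nonneg hq.2, hq.1]
      · rw [if_neg hq] at h
        exact absurd h (by simp)
    · intro h
      have h1 := Option.some.inj h
      rw [Prod.mk.injEq] at h1
      obtain ⟨rfl, rfl⟩ := h1
      rw [if_pos ⟨rfl, Int.natCast_nonneg _⟩]
      simp

/-- The values of the letters. -/
def gg (e : Om k ≃ ℕ) : A3 → PM (Om k)
  | 0 => (pb k).toPEquiv
  | 1 => (pc k).toPEquiv
  | 2 => pt e

theorem mem_pt {e : Om k ≃ ℕ} {p q : Om k} : q ∈ (pt e : Om k ≃. Om k) p ↔ ((e p : ℤ), (0 : ZMod k)) = q := by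
  change some ((e p : ℤ), (0 : ZMod k)) = some q ↔ _
  exact ⟨fun h => Option.some.inj h, fun h => congrArg _ h⟩

theorem mem_equiv {f : Equiv.Perm (Om k)} {p q : Om k} : q ∈ f.toPEquiv p ↔ f p = q := by
  rw [Equiv.toPEquiv_apply, Option.mem_def]
  exact ⟨fun h => Option.some.inj h, fun h => congrArg _ h⟩

theorem mem_equiv_symm {f : Equiv.Perm (Om k)} {p q : Om k} : q ∈ f.toPEquiv.symm p ↔ f q = p := by
  rw [PEquiv.mem_iff_mem, mem_equiv]

theorem mem_pt_symm {e : Om k ≃ ℕ} {p q : Om k} : q ∈ (PEquiv.symm (pt e) : Om k ≃. Om k) p ↔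
    ((e q : ℤ), (0 : ZMod k)) = p := by
  rw [PEquiv.mem_iff_mem, mem_pt]

/-- A total partial bijection. -/
theorem self_mul_symm {f : PM (Om k)} (h : ∀ p, ∃ q, q ∈ (f : Om k ≃. Om k) p) :
    f * PEquiv.symm f = 1 := by
  rw [pm_mul, pm_one]
  apply PEquiv.ext
  intro p
  obtain ⟨q, hq⟩ := h p
  rw [PEquiv.refl_apply, PEquiv.trans_eq_some]
  exact ⟨q, hq, (PEquiv.eq_some_iff f).2 hq⟩

theorem ev_wx_total (e : Om k ≃ ℕ) (p : Om k) :
    e.symm (e p + 1) ∈ (ev (gg e) (FreeMonoid.ofList wx) : Om k ≃. Om k) p := by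
  have h : ev (gg e) (FreeMonoid.ofList wx) = pt e * ((pc k).toPEquiv * PEquiv.symm (pt e)) := by
    unfold wx
    rw [ev_cons, ev_cons, ev_cons, ev_nil, mul_one]
    rfl
  rw [h]
  simp only [pm_mul]
  rw [PEquiv.mem_trans]
  refine ⟨((e p : ℤ), 0), mem_pt.2 rfl, ?_⟩
  rw [PEquiv.mem_trans]
  refine ⟨((e p : ℤ) + 1, 0), mem_equiv.2 (by simp [pc]), ?_⟩
  rw [mem_pt_symm]
  simp

theorem ev_wy_total (hk : 2 ≤ k) (e : Om k ≃ ℕ) (p : Om k) :
    e.symm (e p + 1) ∈ (ev (gg e) (FreeMonoid.ofList wy) : Om k ≃. Om k) p := by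
  haveI : Fact (1 < k) := ⟨by omega⟩
  have h10 : (1 : ZMod k) ≠ 0 := one_ne_zero
  have h : ev (gg e) (FreeMonoid.ofList wy) = pt e * ((pb k).toPEquiv *
      (PEquiv.symm (pc k).toPEquiv * (PEquiv.symm (pb k).toPEquiv * PEquiv.symm (pt e)))) := by
    unfold wy
    rw [ev_cons, ev_cons, ev_cons, ev_cons, ev_cons, ev_nil, mul_one]
    rfl
  rw [h]
  simp only [pm_mul]
  rw [PEquiv.mem_trans]
  refine ⟨((e p : ℤ), 0), mem_pt.2 rfl, ?_⟩
  rw [PEquiv.mem_trans]
  refine ⟨((e p : ℤ), 1), mem_equiv.2 (by simp [pb]), ?_⟩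
  rw [PEquiv.mem_trans]
  refine ⟨((e p : ℤ) + 1, 1), mem_equiv_symm.2 (by simp [pc, h10]), ?_⟩
  rw [PEquiv.mem_trans]
  refine ⟨((e p : ℤ) + 1, 0), mem_equiv_symm.2 (by simp [pb]), ?_⟩
  rw [mem_pt_symm]
  simp

theorem total_equiv (f : Equiv.Perm (Om k)) (p : Om k) : ∃ q, q ∈ (f.toPEquiv : Om k ≃. Om k) p :=
  ⟨f p, mem_equiv.2 rfl⟩

theorem total_equiv_symm (f : Equiv.Perm (Om k)) (p : Om k) :
    ∃ q, q ∈ (f.toPEquiv.symm : Om k ≃. Om k) p :=
  ⟨f.symm p, mem_equiv_symm.2 (by simp)⟩

/-- `r` has the same value as `b`. -/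
theorem ev_r (hk : 2 ≤ k) (e : Om k ≃ ℕ) :
    ev (gg e) (FreeMonoid.ofList r) = (pb k).toPEquiv := by
  unfold r
  simp only [ev_append, ev_winv]
  have h1 := self_mul_symm (f := ev (gg e) (FreeMonoid.ofList wx)) fun p => ⟨_, ev_wx_total e p⟩
  have h2 := self_mul_symm (f := ev (gg e) (FreeMonoid.ofList wy)) fun p => ⟨_, ev_wy_total hk e p⟩
  have l1 : ev (gg e) (FreeMonoid.ofList [(1, true)]) = (pc k).toPEquiv := by
    rw [ev_cons, ev_nil, mul_one]; rfl
  have l2 : ev (gg e) (FreeMonoid.ofList [(1, false)]) = PEquiv.symm (pc k).toPEquiv := by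
    rw [ev_cons, ev_nil, mul_one]; rfl
  have l3 : ev (gg e) (FreeMonoid.ofList [(0, true)]) = (pb k).toPEquiv := by
    rw [ev_cons, ev_nil, mul_one]; rfl
  have l4 : ev (gg e) (FreeMonoid.ofList [(0, false)]) = PEquiv.symm (pb k).toPEquiv := by
    rw [ev_cons, ev_nil, mul_one]; rfl
  have h3 := self_mul_symm (f := ((pc k).toPEquiv : PM (Om k))) (total_equiv (pc k))
  have h4 := self_mul_symm (f := (PEquiv.symm (pc k).toPEquiv : PM (Om k))) (total_equiv_symm (pc k))
  have h5 := self_mul_symm (f := ((pb k).toPEquiv : PM (Om k))) (total_equiv (pb k))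
  have h6 := self_mul_symm (f := (PEquiv.symm (pb k).toPEquiv : PM (Om k))) (total_equiv_symm (pb k))
  rw [l1, l2, l3, l4, h1, h2, h3, h4, h5, h6]
  simp only [one_mul]

theorem pb_pow (n : ℕ) : ((pb k).toPEquiv : PM (Om k)) ^ n = ((pb k ^ n : Equiv.Perm (Om k))).toPEquiv := by
  induction n with
  | zero => rfl
  | succ n ih =>
    rw [pow_succ', ih, pow_succ, pm_mul, ← Equiv.toPEquiv_trans]
    rfl

theorem pb_pow_apply (n : ℕ) (p : Om k) : ((pb k) ^ n) p = (p.1, p.2 + n) := by
  induction n with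
  | zero => simp
  | succ n ih => rw [pow_succ', Equiv.Perm.mul_apply, ih]; simp [pb, add_assoc]

theorem ev_rpow (hk : 2 ≤ k) (e : Om k ≃ ℕ) :
    ev (gg e) (FreeMonoid.ofList (wpow r k)) = 1 := by
  rw [ev_wpow, ev_r hk, pb_pow]
  have : (pb k) ^ k = 1 := by
    ext p <;> rw [pb_pow_apply] <;> simp
  rw [this]
  rfl

end concrete

/-- **Q1 has a negative answer.** For the word `r` over three letters and every `k ≥ 2` the set of the
minimal invertible pieces of `r ^ k` in `Inv⟨A | r ^ k = 1⟩` is different from the set of the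
minimal invertible pieces of `r` in `Inv⟨A | r = 1⟩`. -/
theorem result : ∃ r : Word (Fin 3), r ≠ [] ∧ ∀ k : ℕ, 2 ≤ k → Pieces (wpow r k) ≠ Pieces r := by
  refine ⟨r, by simp [r, wx], ?_⟩
  intro k hk heq
  obtain ⟨e⟩ := countable_Om k hk
  -- the prefixes of `x` do not represent units in `Inv⟨A | r ^ k = 1⟩`
  have hU : ∀ u : Word A3, UnitWord (wpow r k) u → IsUnit (ev (gg e) (FreeMonoid.ofList u)) :=
    fun u hu => isUnit_ev (gg e) (ev_rpow hk e) hu
  have ht : ev (gg e) (FreeMonoid.ofList [(2, true)]) = pt e := by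
    rw [ev_cons, ev_nil, mul_one]; rfl
  have htc : ev (gg e) (FreeMonoid.ofList [(2, true), (1, true)]) = pt e * (pc k).toPEquiv := by
    rw [ev_cons, ev_cons, ev_nil, mul_one]; rfl
  have h1 : ¬ IsUnit (ev (gg e) (FreeMonoid.ofList [(2, true)])) := by
    intro h
    obtain ⟨a, ha⟩ := surj_of_isUnit h (-1, 0)
    rw [ht, mem_pt] at ha
    have := congrArg Prod.fst ha
    simp only at this
    omega
  have h2 : ¬ IsUnit (ev (gg e) (FreeMonoid.ofList [(2, true), (1, true)])) := by
    intro h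
    obtain ⟨a, ha⟩ := surj_of_isUnit h (0, 0)
    rw [htc, pm_mul, PEquiv.mem_trans] at ha
    obtain ⟨q, hq, hq2⟩ := ha
    rw [mem_pt] at hq
    rw [mem_equiv, ← hq] at hq2
    simp only [pc, Equiv.coe_fn_mk, if_true, Prod.mk.injEq, and_true] at hq2
    omega
  have h3 : ¬ IsUnit (ev (gg e) (FreeMonoid.ofList wx)) := by
    intro h
    obtain ⟨a, ha⟩ := surj_of_isUnit h (e.symm 0)
    have h4 := ev_wx_total e a
    rw [Option.mem_def] at ha h4
    rw [h4] at ha
    have h5 := Option.some.inj ha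
    have h6 := congrArg e h5
    simp at h6
  -- every prefix of `x` which is a piece for `r` gives a contradiction
  have key : ∀ y : Word A3, (y = [(2, true)] ∨ y = [(2, true), (1, true)] ∨ y = wx) →
      y ∉ Pieces r := by
    intro y hy hp
    rw [← heq] at hp
    obtain ⟨_, x, z, _, hx, hxy, _⟩ := hp
    have hx' := hU _ hx
    have hxy' := hU _ hxy
    rw [ev_append] at hxy'
    have hy' : IsUnit (ev (gg e) (FreeMonoid.ofList y)) := by
      obtain ⟨u, hu⟩ := hx'
      rw [← hu] at hxy'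
      exact (Units.isUnit_units_mul u _).1 hxy'
    rcases hy with rfl | rfl | rfl
    · exact h1 hy'
    · exact h2 hy'
    · exact h3 hy'
  by_cases c1 : UnitWord r [(2, true)]
  · apply key [(2, true)] (Or.inl rfl)
    refine ⟨by simp, [], r.drop 1, rfl, UnitWord.nil, c1, ?_⟩
    intro y' y'' h h' h''
    exfalso
    have := congrArg List.length h
    have l1 := List.length_pos_iff.2 h'
    have l2 := List.length_pos_iff.2 h''
    simp at this
    omega
  · by_cases c2 : UnitWord r [(2, true), (1, true)]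
    · apply key [(2, true), (1, true)] (Or.inr (Or.inl rfl))
      refine ⟨by simp, [], r.drop 2, rfl, UnitWord.nil, c2, ?_⟩
      intro y' y'' h h' h''
      rcases y' with _ | ⟨a, _ | ⟨b, y'⟩⟩
      · exact absurd rfl h'
      · simp at h
        obtain ⟨rfl, _⟩ := h
        exact c1
      · exfalso
        have h7 := congrArg List.length h
        have l2 := List.length_pos_iff.2 h''
        simp only [List.length_append, List.length_cons, List.length_nil] at h7
        omega
    · apply key wx (Or.inr (Or.inr rfl))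
      refine ⟨by simp [wx], [], r.drop 3, rfl, UnitWord.nil, unit_x, ?_⟩
      intro y' y'' h h' h''
      rcases y' with _ | ⟨a, _ | ⟨b, _ | ⟨d, y'⟩⟩⟩
      · exact absurd rfl h'
      · simp [wx] at h
        obtain ⟨rfl, _⟩ := h
        exact c1
      · simp [wx] at h
        obtain ⟨rfl, rfl, _⟩ := h
        exact c2
      · exfalso
        have h7 := congrArg List.length h
        have l2 := List.length_pos_iff.2 h''
        simp only [wx, List.length_append, List.length_cons, List.length_nil] at h7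
        omega

end Pool.Agent.Results.MP_d4551b_al.PiecesDiffer
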